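import Pool.Agent.U190.AP.SpecDef

/-!
# Semisimple similitudes with self-conjugate eigenvalues
-/

open Polynomial Module

namespace Pool.Agent.U190.AP

variable {K : Type*} [Field K] {V : Type*} [AddCommGroup V] [Module K V]

lemma degree_minpoly_le [FiniteDimensional K V] (s : Module.End K V) :
    (minpoly K s).natDegree ≤ finrank K V := by
  rw [← LinearMap.charpoly_natDegree s]
  exact natDegree_le_of_dvd (LinearMap.minpoly_dvd_charpoly s)
    (LinearMap.charpoly_monic s).ne_zero

lemma aeval_restrict (s : Module.End K V) {U : Submodule K V} (h : ∀ x ∈ U, s x ∈ U) (p : K[X])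
    (x : U) : ((aeval (s.restrict h) p x : U) : V) = aeval s p (x : V) := by
  induction p using Polynomial.induction_on' with
  | add p q hp hq =>
    rw [map_add, map_add, LinearMap.add_apply, LinearMap.add_apply, Submodule.coe_add, hp, hq]
  | monomial n a =>
    rw [aeval_monomial, aeval_monomial, Module.End.mul_apply, Module.End.mul_apply,
      Module.algebraMap_end_apply, Module.algebraMap_end_apply, Submodule.coe_smul]
    congr 1
    induction n with
    | zero => rw [pow_zero, pow_zero]; rfl
    | succ n ih =>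
      rw [pow_succ', pow_succ', Module.End.mul_apply, Module.End.mul_apply, ← ih]
      rfl

lemma aeval_mem (s : Module.End K V) {U : Submodule K V} (h : ∀ x ∈ U, s x ∈ U) (p : K[X])
    {x : V} (hx : x ∈ U) : aeval s p x ∈ U := by
  rw [← aeval_restrict s h p ⟨x, hx⟩]
  exact Submodule.coe_mem _

/-- **Stable subspaces are not isotropic**, if they contain the kernel of an irreducible polynomial
in `s` as soon as they meet it. -/
theorem exists_pairing_of_ker [FiniteDimensional K V] {s : Module.End K V} {c : K}
    (h : IsSelfDual s c) (hc : c ≠ 0) (B : V → V → K)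
    (hadd : ∀ x y z, B x (y + z) = B x y + B x z) (hsmul : ∀ x (a : K) y, B x (a • y) = a * B x y)
    (hadd' : ∀ x y z, B (x + y) z = B x z + B y z) (hsmul' : ∀ (a : K) x y, B (a • x) y = a * B x y)
    (hB : ∀ x y, B (s x) (s y) = c * B x y) (hnd : ∀ x, (∀ y, B x y = 0) → x = 0)
    {U : Submodule K V} (hU : U ≠ ⊥) (hs : ∀ x ∈ U, s x ∈ U)
    (hkerU : ∀ f : K[X], f.Monic → Irreducible f → f ∣ minpoly K s →
      U ⊓ LinearMap.ker (aeval s f) ≠ ⊥ → LinearMap.ker (aeval s f) ≤ U) :
    ∃ x ∈ U, ∃ y ∈ U, B x y ≠ 0 := by
  obtain ⟨hsq, hself⟩ := h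
  set m := minpoly K s with hm
  have hsint : IsIntegral K s := Algebra.IsIntegral.isIntegral s
  have hm0 : m ≠ 0 := minpoly.ne_zero hsint
  have hB0 : ∀ y, B 0 y = 0 := by
    intro y
    have := hsmul' 0 0 y
    rwa [zero_smul, zero_mul] at this
  have hB0' : ∀ x, B x 0 = 0 := by
    intro x
    have := hsmul x 0 0
    rwa [zero_smul, zero_mul] at this
  -- `s` is injective
  have hinj : ∀ x, s x = 0 → x = 0 := by
    intro x hx
    apply hnd
    intro y
    have h1 := hB x y
    rw [hx, hB0] at h1
    exact (mul_eq_zero.1 h1.symm).resolve_left hc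
  -- an irreducible factor
  set sU := s.restrict hs with hsU
  have hUint : IsIntegral K sU := Algebra.IsIntegral.isIntegral sU
  have : Nontrivial U := (Submodule.nontrivial_iff_ne_bot).2 hU
  obtain ⟨α, hα⟩ : ∃ α : AlgebraicClosure K, aeval α (minpoly K sU) = 0 := by
    have h1 : (minpoly K sU).degree ≠ 0 := by
      have := minpoly.degree_pos hUint
      exact this.ne'
    exact IsAlgClosed.exists_aeval_eq_zero _ _ h1
  have hαint : IsIntegral K α := Algebra.IsIntegral.isIntegral α
  set f := minpoly K α with hf
  have hfirr : Irreducible f := minpoly.irreducible hαint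
  have hfm : f.Monic := minpoly.monic hαint
  have hfU : f ∣ minpoly K sU := minpoly.dvd K α hα
  have hUm : minpoly K sU ∣ m := by
    apply minpoly.dvd
    apply LinearMap.ext
    intro x
    apply Subtype.ext
    rw [aeval_restrict, hm, minpoly.aeval]
    rfl
  have hfdvd : f ∣ m := hfU.trans hUm
  have hα0 : α ≠ 0 := by
    intro h0
    have h1 : f = X := by
      rw [hf, h0]
      exact minpoly.zero K (AlgebraicClosure K)
    obtain ⟨g, hg⟩ := hfdvd
    rw [h1] at hg
    have h2 : aeval s g = 0 := by
      apply LinearMap.ext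
      intro x
      apply hinj
      have h3 : aeval s m x = 0 := by rw [hm, minpoly.aeval]; rfl
      rw [hg, map_mul, aeval_X, Module.End.mul_apply] at h3
      exact h3
    have h3 : m ∣ g := minpoly.dvd K s h2
    have hg0 : g ≠ 0 := by
      intro h0
      rw [h0, mul_zero] at hg
      exact hm0 hg
    have h4 := natDegree_le_of_dvd h3 hg0
    rw [hg, natDegree_mul X_ne_zero hg0, natDegree_X] at h4
    omega
  have hαm : aeval α m = 0 := by
    obtain ⟨g, hg⟩ := hfdvd
    rw [hg, map_mul, hf, minpoly.aeval, zero_mul]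
  have hrec := hself α hαm
  -- the reciprocal polynomial
  set d := f.natDegree with hd
  set g : K[X] := ∑ i ∈ Finset.range (d + 1), C (f.coeff i * c ^ i) * X ^ (d - i) with hg
  have hga : aeval α g = 0 := by
    have h1 : aeval α g = α ^ d * aeval (algebraMap K (AlgebraicClosure K) c / α) f := by
      rw [hg, map_sum, aeval_eq_sum_range, Finset.mul_sum]
      apply Finset.sum_congr rfl
      intro i hi
      have hi' : i ≤ d := by have := Finset.mem_range.1 hi; omega
      rw [map_mul, aeval_C, map_pow, aeval_X, map_mul, map_pow, Algebra.smul_def, div_pow]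
      have h2 : α ^ d = α ^ (d - i) * α ^ i := by rw [← pow_add]; congr 1; omega
      rw [h2]
      have h3 : α ^ i ≠ 0 := pow_ne_zero _ hα0
      field_simp
    rw [h1, hrec, mul_zero]
  have hfg : f ∣ g := minpoly.dvd K α hga
  have hgdeg : g.natDegree ≤ d := by
    rw [hg]
    apply natDegree_sum_le_of_forall_le
    intro i _
    exact (natDegree_C_mul_X_pow_le _ _).trans (by omega)
  have hgd : g.coeff d = f.coeff 0 := by
    rw [hg, finsetSum_coeff, Finset.sum_eq_single 0]
    · rw [coeff_C_mul, coeff_X_pow, Nat.sub_zero, if_pos rfl, pow_zero, mul_one, mul_one]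
    · intro i hi hi0
      rw [coeff_C_mul, coeff_X_pow, if_neg, mul_zero]
      have := Finset.mem_range.1 hi
      omega
    · intro h0
      exact absurd (Finset.mem_range.2 (by omega)) h0
  have hf0 : f.coeff 0 ≠ 0 := by
    rw [hf]
    exact minpoly.coeff_zero_ne_zero hαint hα0
  have hgf : g = C (f.coeff 0) * f := by
    obtain ⟨u, hu⟩ := hfg
    have hg0 : g ≠ 0 := by
      intro h0
      rw [h0, coeff_zero] at hgd
      exact hf0 hgd.symm
    have hu0 : u ≠ 0 := by
      rintro rfl
      rw [mul_zero] at hu
      exact hg0 hu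
    have h1 : u.natDegree = 0 := by
      rw [hu, natDegree_mul hfm.ne_zero hu0] at hgdeg
      omega
    obtain ⟨a, ha⟩ := natDegree_eq_zero.1 h1
    have h2 : g.coeff d = a := by
      rw [hu, ← ha, coeff_mul_C, hd, hfm.coeff_natDegree, one_mul]
    rw [hu, ← ha, ← h2, hgd, mul_comm]
  -- the kernel of `f` is orthogonal to the image of `f`
  have hpow : ∀ (n i : ℕ) x y, i ≤ n → B ((s ^ i) x) ((s ^ n) y) = c ^ i * B x ((s ^ (n - i)) y) := by
    intro n i
    induction i generalizing n with
    | zero => intro x y _; rw [pow_zero, pow_zero, one_mul, Nat.sub_zero]; rfl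
    | succ i ih =>
      intro x y hin
      obtain ⟨n', rfl⟩ : ∃ n', n = n' + 1 := ⟨n - 1, by omega⟩
      rw [pow_succ' s i, pow_succ' s n', Module.End.mul_apply, Module.End.mul_apply, hB,
        ih n' x y (by omega), Nat.add_sub_add_right, pow_succ]
      ring
  have hsumL : ∀ {ι : Type} (t : Finset ι) (u : ι → V) y, B (∑ i ∈ t, u i) y = ∑ i ∈ t, B (u i) y := by
    intro ι t u y
    classical
    induction t using Finset.induction_on with
    | empty => rw [Finset.sum_empty, Finset.sum_empty, hB0]
    | insert a t ha ih => rw [Finset.sum_insert ha, Finset.sum_insert ha, hadd', ih]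
  have hsumR : ∀ {ι : Type} (t : Finset ι) (u : ι → V) x, B x (∑ i ∈ t, u i) = ∑ i ∈ t, B x (u i) := by
    intro ι t u x
    classical
    induction t using Finset.induction_on with
    | empty => rw [Finset.sum_empty, Finset.sum_empty, hB0']
    | insert a t ha ih => rw [Finset.sum_insert ha, Finset.sum_insert ha, hadd, ih]
  have horth : ∀ x, aeval s f x = 0 → ∀ y, B x (aeval s f y) = 0 := by
    intro x hx y
    have h1 : B (aeval s f x) ((s ^ d) y) = B x (aeval s g y) := by
      rw [aeval_eq_sum_range, LinearMap.sum_apply, hsumL, hg, map_sum, LinearMap.sum_apply, hsumR]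
      apply Finset.sum_congr rfl
      intro i hi
      have hi' : i ≤ d := by have := Finset.mem_range.1 hi; omega
      rw [LinearMap.smul_apply, hsmul', hpow d i x y hi', map_mul, aeval_C, map_pow, aeval_X,
        Module.End.mul_apply, Module.algebraMap_end_apply, hsmul]
      ring
    rw [hx, hB0, hgf, map_mul, aeval_C, Module.End.mul_apply, Module.algebraMap_end_apply,
      hsmul] at h1
    exact (mul_eq_zero.1 h1.symm).resolve_left hf0
  -- the complementary factor
  obtain ⟨r, hr⟩ := hfdvd
  have hcop : IsCoprime f r := by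
    rw [hfirr.coprime_iff_not_dvd]
    rintro ⟨t, ht⟩
    have h1 : f * f ∣ m := ⟨t, by rw [hr, ht]; ring⟩
    exact hfirr.not_isUnit (hsq f h1)
  obtain ⟨a, b, hab⟩ := hcop
  have hfr : ∀ x, aeval s f (aeval s r x) = 0 := by
    intro x
    rw [← Module.End.mul_apply, ← map_mul, ← hr, hm, minpoly.aeval]
    rfl
  have hr0 : r ≠ 0 := by
    rintro rfl
    rw [mul_zero] at hr
    exact hm0 hr
  -- the kernel of `f` is contained in `U`
  set U' := U ⊓ LinearMap.ker (aeval s f) with hU'
  have hsU' : ∀ x ∈ U', s x ∈ U' := by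
    rintro x ⟨hx, hx'⟩
    have hx'' : aeval s f x = 0 := LinearMap.mem_ker.1 hx'
    refine ⟨hs x hx, ?_⟩
    change s x ∈ LinearMap.ker (aeval s f)
    rw [LinearMap.mem_ker]
    have h2 : aeval s f * s = s * aeval s f := by
      have h3 : Commute (aeval s f) (aeval s X) := (Commute.all f X).map (aeval s)
      rw [aeval_X] at h3
      exact h3
    have h3 := congrArg (fun F => F x) h2
    beta_reduce at h3
    rw [Module.End.mul_apply, Module.End.mul_apply, hx'', map_zero] at h3
    exact h3
  have hU'0 : U' ≠ ⊥ := by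
    intro h0
    obtain ⟨q, hq⟩ := hfU
    have hq0 : q ≠ 0 := by
      rintro rfl
      rw [mul_zero] at hq
      exact minpoly.ne_zero hUint hq
    have h1 : aeval sU q = 0 := by
      apply LinearMap.ext
      intro x
      apply Subtype.ext
      have h2 : ((aeval sU q x : U) : V) ∈ U' := by
        refine ⟨Submodule.coe_mem _, ?_⟩
        change ((aeval sU q x : U) : V) ∈ LinearMap.ker (aeval s f)
        rw [LinearMap.mem_ker, ← aeval_restrict s hs f, ← Module.End.mul_apply, ← map_mul, ← hq,
          minpoly.aeval]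
        rfl
      rw [h0, Submodule.mem_bot] at h2
      rw [h2]
      rfl
    have h2 := natDegree_le_of_dvd (minpoly.dvd K sU h1) hq0
    rw [hq, natDegree_mul hfm.ne_zero hq0] at h2
    have h3 : 0 < f.natDegree := minpoly.natDegree_pos hαint
    omega
  have hUker : LinearMap.ker (aeval s f) ≤ U := hkerU f hfm hfirr ⟨r, hr⟩ hU'0
  obtain ⟨x, hx, hx0⟩ := (Submodule.ne_bot_iff _).1 hU'0
  obtain ⟨y, hy⟩ : ∃ y, B x y ≠ 0 := by
    by_contra hcon
    push Not at hcon
    exact hx0 (hnd x hcon)
  have hxf : aeval s f x = 0 := LinearMap.mem_ker.1 hx.2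
  have hdec : y = aeval s f (aeval s a y) + aeval s r (aeval s b y) := by
    have h1 := congrArg (fun p => aeval s p y) hab
    beta_reduce at h1
    rw [map_add, map_mul, map_mul, map_one, LinearMap.add_apply, ← map_mul, ← map_mul,
      mul_comm a f, mul_comm b r, map_mul, map_mul, Module.End.mul_apply, Module.End.mul_apply] at h1
    exact h1.symm
  refine ⟨x, hx.1, aeval s r (aeval s b y), ?_, ?_⟩
  · have h1 : aeval s r (aeval s b y) ∈ LinearMap.ker (aeval s f) := LinearMap.mem_ker.2 (hfr _)
    exact hUker h1
  · intro h0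
    apply hy
    rw [hdec, hadd, h0, add_zero]
    exact horth x hxf _

/-- If the eigenvalues are simple, stable subspaces contain the kernel of an irreducible polynomial in
`s` as soon as they meet it. -/
theorem ker_le_of_degree [FiniteDimensional K V] {s : Module.End K V}
    (hdeg : (minpoly K s).natDegree = finrank K V)
    {U : Submodule K V} (hs : ∀ x ∈ U, s x ∈ U) {f : K[X]} (hfm : f.Monic) (hfirr : Irreducible f)
    (hfdvd : f ∣ minpoly K s) (hU'0 : U ⊓ LinearMap.ker (aeval s f) ≠ ⊥) :
    LinearMap.ker (aeval s f) ≤ U := by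
  set m := minpoly K s with hm
  have hm0 : m ≠ 0 := minpoly.ne_zero (Algebra.IsIntegral.isIntegral s)
  set d := f.natDegree with hd
  obtain ⟨r, hr⟩ := hfdvd
  have hr0 : r ≠ 0 := by
    rintro rfl
    rw [mul_zero] at hr
    exact hm0 hr
  -- the dimension of the kernel of `f`
  have hker : finrank K (LinearMap.ker (aeval s f)) ≤ d := by
    have h1 := LinearMap.finrank_range_add_finrank_ker (aeval s f)
    have hst : ∀ x ∈ LinearMap.range (aeval s f), s x ∈ LinearMap.range (aeval s f) := by
      rintro _ ⟨y, rfl⟩
      refine ⟨s y, ?_⟩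
      have h2 : aeval s f * s = s * aeval s f := by
        have h3 : Commute (aeval s f) (aeval s X) := (Commute.all f X).map (aeval s)
        rw [aeval_X] at h3
        exact h3
      exact congrArg (fun F => F y) h2
    have h2 := degree_minpoly_le (s.restrict hst)
    have h3 : r ∣ minpoly K (s.restrict hst) := by
      have h4 : m ∣ f * minpoly K (s.restrict hst) := by
        apply minpoly.dvd
        apply LinearMap.ext
        intro x
        have h5 := congrArg (fun F : Module.End K (LinearMap.range (aeval s f)) =>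
          ((F ⟨aeval s f x, ⟨x, rfl⟩⟩ : LinearMap.range (aeval s f)) : V))
          (minpoly.aeval K (s.restrict hst))
        beta_reduce at h5
        rw [aeval_restrict] at h5
        rw [mul_comm, map_mul, Module.End.mul_apply]
        exact h5
      rw [hr] at h4
      exact (mul_dvd_mul_iff_left hfm.ne_zero).1 h4
    have h4 : r.natDegree ≤ (minpoly K (s.restrict hst)).natDegree :=
      natDegree_le_of_dvd h3 (minpoly.ne_zero (Algebra.IsIntegral.isIntegral _))
    have h5 : m.natDegree = d + r.natDegree := by
      rw [hr, natDegree_mul hfm.ne_zero hr0]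
    omega
  set U' := U ⊓ LinearMap.ker (aeval s f) with hU'
  have hsU' : ∀ x ∈ U', s x ∈ U' := by
    rintro x ⟨hx, hx'⟩
    have hx'' : aeval s f x = 0 := LinearMap.mem_ker.1 hx'
    refine ⟨hs x hx, ?_⟩
    change s x ∈ LinearMap.ker (aeval s f)
    rw [LinearMap.mem_ker]
    have h2 : aeval s f * s = s * aeval s f := by
      have h3 : Commute (aeval s f) (aeval s X) := (Commute.all f X).map (aeval s)
      rw [aeval_X] at h3
      exact h3
    have h3 := congrArg (fun F => F x) h2
    beta_reduce at h3
    rw [Module.End.mul_apply, Module.End.mul_apply, hx'', map_zero] at h3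
    exact h3
  have hdU' : d ≤ finrank K U' := by
    have : Nontrivial U' := (Submodule.nontrivial_iff_ne_bot).2 hU'0
    have h1 := degree_minpoly_le (s.restrict hsU')
    have h2 : minpoly K (s.restrict hsU') ∣ f := by
      apply minpoly.dvd
      apply LinearMap.ext
      intro x
      apply Subtype.ext
      rw [aeval_restrict]
      exact LinearMap.mem_ker.1 x.2.2
    have hint : IsIntegral K (s.restrict hsU') := Algebra.IsIntegral.isIntegral _
    have h3 : Associated (minpoly K (s.restrict hsU')) f :=
      (hfirr.dvd_iff.1 h2).resolve_left (minpoly.not_isUnit K _) |>.symm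
    have h4 := natDegree_eq_of_degree_eq (degree_eq_degree_of_associated h3)
    rw [hd, ← h4]
    exact h1
  have hUker : U' = LinearMap.ker (aeval s f) :=
    Submodule.eq_of_le_of_finrank_le inf_le_right (hker.trans hdU')
  rw [← hUker]
  exact inf_le_left

/-- Subspaces stable under all operators which commute with the semisimple operator `s` contain the
kernel of an irreducible polynomial in `s` as soon as they meet it. -/
theorem ker_le_of_commutant {s : Module.End K V} (hsq : Squarefree (minpoly K s))
    {U : Submodule K V} (hU : ∀ φ : Module.End K V, φ ∘ₗ s = s ∘ₗ φ → ∀ x ∈ U, φ x ∈ U)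
    {f : K[X]} (hfirr : Irreducible f) (hU'0 : U ⊓ LinearMap.ker (aeval s f) ≠ ⊥) :
    LinearMap.ker (aeval s f) ≤ U := by
  obtain ⟨x, ⟨hx, hxf⟩, hx0⟩ := (Submodule.ne_bot_iff _).1 hU'0
  have hxf : aeval s f x = 0 := LinearMap.mem_ker.1 hxf
  intro y hyf
  rw [LinearMap.mem_ker] at hyf
  have hss : s.IsSemisimple :=
    Module.End.isSemisimple_of_squarefree_aeval_eq_zero hsq (minpoly.aeval K s)
  have hss' : IsSemisimpleModule K[X] (Module.AEval' s) := hss
  set ι := Module.AEval'.of s with hι
  obtain ⟨C, hC⟩ := exists_isCompl (Submodule.span K[X] {ι x})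
  have hle : Ideal.torsionOf K[X] (Module.AEval' s) (ι x) ≤
      LinearMap.ker (LinearMap.toSpanSingleton K[X] (Module.AEval' s) (ι y)) := by
    intro p hp
    rw [Ideal.mem_torsionOf_iff] at hp
    have hp' : aeval s p x = 0 := by
      apply ι.injective
      rw [map_zero, ← hp]
      exact Module.AEval.of_aeval_smul s p x
    have hfp : f ∣ p := by
      by_contra hcon
      obtain ⟨a, b, hab⟩ := (hfirr.coprime_iff_not_dvd.2 hcon)
      apply hx0
      have h1 := congrArg (fun p => aeval s p x) hab
      beta_reduce at h1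
      rw [map_add, map_mul, map_mul, map_one, LinearMap.add_apply, Module.End.mul_apply,
        Module.End.mul_apply, hxf, hp', map_zero, map_zero, add_zero] at h1
      exact h1.symm
    obtain ⟨r, rfl⟩ := hfp
    rw [LinearMap.mem_ker, LinearMap.toSpanSingleton_apply]
    have h1 : aeval s (f * r) y = 0 := by
      rw [mul_comm, map_mul, Module.End.mul_apply, hyf, map_zero]
    have h2 := Module.AEval.of_aeval_smul s (f * r) y
    have h3 : (aeval s (f * r)) • y = 0 := h1
    rw [h3, map_zero] at h2
    exact h2.symm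
  set g : Submodule.span K[X] {ι x} →ₗ[K[X]] Module.AEval' s :=
    Submodule.liftQ _ _ hle ∘ₗ
      (Ideal.quotTorsionOfEquivSpanSingleton K[X] (Module.AEval' s) (ι x)).symm.toLinearMap with hg
  have hgx : g ⟨ι x, Submodule.mem_span_singleton_self _⟩ = ι y := by
    have h1 : (Ideal.quotTorsionOfEquivSpanSingleton K[X] (Module.AEval' s) (ι x)).symm
        ⟨ι x, Submodule.mem_span_singleton_self _⟩ = Submodule.Quotient.mk 1 := by
      rw [LinearEquiv.symm_apply_eq, Ideal.quotTorsionOfEquivSpanSingleton_apply_mk, one_smul]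
    rw [hg, LinearMap.comp_apply, LinearEquiv.coe_coe, h1]
    erw [Submodule.liftQ_apply]
    rw [LinearMap.toSpanSingleton_apply, one_smul]
  set φ' : Module.AEval' s →ₗ[K[X]] Module.AEval' s :=
    g ∘ₗ Submodule.projectionOnto _ C hC with hφ'
  have hφx : φ' (ι x) = ι y := by
    rw [hφ', LinearMap.comp_apply]
    have h1 : (Submodule.projectionOnto _ C hC) (ι x) =
        ⟨ι x, Submodule.mem_span_singleton_self _⟩ :=
      Submodule.projectionOnto_apply_left hC ⟨ι x, Submodule.mem_span_singleton_self _⟩
    rw [h1, hgx]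
  set φ : Module.End K V := ι.symm.toLinearMap ∘ₗ (φ'.restrictScalars K) ∘ₗ ι.toLinearMap with hφ
  have hcomm : φ ∘ₗ s = s ∘ₗ φ := by
    apply LinearMap.ext
    intro v
    apply ι.injective
    have h1 : ∀ v, ι (s v) = (X : K[X]) • ι v := fun v =>
      (Module.AEval.X_smul_of s v).symm
    have h2 : ∀ v, ι (φ v) = φ' (ι v) := fun v => ι.apply_symm_apply _
    change ι (φ (s v)) = ι (s (φ v))
    rw [h2, h1, h1, h2, map_smul]
  have h1 := hU φ hcomm x hx
  have h2 : φ x = y := by
    apply ι.injective
    rw [← hφx]
    exact ι.apply_symm_apply _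
  rwa [h2] at h1

end Pool.Agent.U190.AP
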