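import Pool.Agent.U190.AP.SDefs
import Pool.Agent.U190.AP.Spec
import Pool.Agent.U190.AN.Main

/-!
# From the compact definitions to the theorems
-/

open CategoryTheory AlgebraicGeometry

universe u v

namespace Pool.Agent.U190.AP

namespace Frame

variable {K A : Type*} [Field K] [Ring A] [Algebra K A]

/-- Stable subspaces are stable under the combinations of correspondences of degree zero. -/
lemma Stable.span {F : Frame K A} {U : Submodule K A} (h : F.Stable U) {ψ : A → A}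
    (hψ : ψ ∈ Submodule.span K (F.op F.n)) : ∀ x ∈ U, ψ x ∈ U := by
  induction hψ using Submodule.span_induction with
  | mem e he => exact h.1 e he
  | zero => exact fun x _ => U.zero_mem
  | add a b _ _ ha hb => exact fun x hx => U.add_mem (ha x hx) (hb x hx)
  | smul c a _ ha => exact fun x hx => U.smul_mem c (ha x hx)

/-- Stable subspaces of a good subspace with a non-degenerate form are not isotropic. -/
theorem Good.pairs [FiniteDimensional K A] {F : Frame K A} {B : A → A → K} {P : Submodule K A}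
    (h : F.Good B P)
    (hadd : ∀ x y z, B x (y + z) = B x y + B x z) (hsmul : ∀ x (a : K) y, B x (a • y) = a * B x y)
    (hadd' : ∀ x y z, B (x + y) z = B x z + B y z) (hsmul' : ∀ (a : K) x y, B (a • x) y = a * B x y)
    (hnd : ∀ x ∈ P, (∀ y ∈ P, B x y = 0) → x = 0) {U : Submodule K A} (hUP : U ≤ P)
    (hne : U ≠ ⊥) (hst : F.Stable U) : ∃ θ ∈ F.ops, ∃ x ∈ U, ∃ y ∈ U, B x (θ y) ≠ 0 := by
  rcases h with h | ⟨Δ, hΔ, hconj, htr⟩ | ⟨s, hs, q, hq, hB, hSt, hsd, hsp⟩
  · exact h U hUP hne hst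
  · have hB0' : ∀ x, B x 0 = 0 := by
      intro x
      have := hsmul x 0 0
      rwa [zero_smul, zero_mul] at this
    have hall : U = P := by
      obtain ⟨x, hx, hx0⟩ := (Submodule.ne_bot_iff _).1 hne
      obtain ⟨δ, hδ, hxδ⟩ : ∃ δ ∈ Δ, B x δ ≠ 0 := by
        by_contra hcon
        push Not at hcon
        apply hx0
        refine hnd x (hUP hx) (fun y hy => ?_)
        rw [← hΔ] at hy
        refine Submodule.span_induction (p := fun y _ => B x y = 0) ?_ ?_ ?_ ?_ hy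
        · exact fun y hy => hcon y hy
        · exact hB0' x
        · intro a b _ _ ha hb
          rw [hadd, ha, hb, add_zero]
        · intro c a _ ha
          rw [hsmul, ha, mul_zero]
      have hδU : δ ∈ U := by
        obtain ⟨s, hs, c, hc, hsx⟩ := htr δ hδ
        have h1 := hst.2 s hs x hx
        rw [hsx x (hUP hx)] at h1
        have h2 := Submodule.sub_mem _ h1 hx
        rw [add_sub_cancel_left] at h2
        exact (Submodule.smul_mem_iff _ (mul_ne_zero hc hxδ)).1 h2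
      refine le_antisymm hUP ?_
      rw [← hΔ, Submodule.span_le]
      intro δ' hδ'
      obtain ⟨s, hs, h1 | h1⟩ := hconj δ hδ δ' hδ'
      · rw [← h1]
        exact hst.2 s hs δ hδU
      · have h2 := hst.2 s hs δ hδU
        rw [h1] at h2
        exact (Submodule.neg_mem_iff _).1 h2
    obtain ⟨x, hx, hx0⟩ := (Submodule.ne_bot_iff _).1 hne
    by_contra hcon
    push Not at hcon
    apply hx0
    refine hnd x (hUP hx) (fun y hy => ?_)
    exact hcon id (Or.inl rfl) x hx y (by rw [hall]; exact hy)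
  · set U' : Submodule K P := U.comap P.subtype with hU'
    have hU'0 : U' ≠ ⊥ := by
      obtain ⟨x, hx, hx0⟩ := (Submodule.ne_bot_iff _).1 hne
      refine (Submodule.ne_bot_iff _).2 ⟨⟨x, hUP hx⟩, hx, ?_⟩
      intro h0
      exact hx0 (congrArg Subtype.val h0)
    have hsU' : ∀ x ∈ U', (s.1.toLinearMap.restrict hSt) x ∈ U' := fun x hx => hst.2 s hs _ hx
    obtain ⟨x, hx, y, hy, hxy⟩ := exists_pairing_of_ker hsd hq
      (fun x y : P => B (x : A) (y : A))
      (fun x y z => hadd _ _ _) (fun x a y => hsmul _ _ _)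
      (fun x y z => hadd' _ _ _) (fun a x y => hsmul' _ _ _)
      (fun x y => hB _ _)
      (fun x hx => Subtype.ext (hnd x x.2 (fun y hy => hx ⟨y, hy⟩))) hU'0 hsU'
      (fun f hfm hfirr hfdvd hne' => by
        rcases hsp with hdeg | hT
        · exact ker_le_of_degree hdeg hsU' hfm hfirr hfdvd hne'
        · refine ker_le_of_commutant hsd.1 (fun φ hφ x hx => ?_) hfirr hne'
          obtain ⟨ψ, hψ, h1⟩ := hT φ hφ
          change ((φ x : P) : A) ∈ U
          rw [h1 x]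
          exact hst.span hψ _ hx)
    exact ⟨id, Or.inl rfl, x, hx, y, hy, hxy⟩

end Frame

open Pool.Agent.H914 Pool.Agent.H914.VarClass Pool.Agent.H914.VarClass.Obj
  Pool.Agent.H914.WeilCohomology Pool.Agent.H281R3.HT Pool.Agent.R908 Pool.Agent.H447
open Pool.Agent.U190.AN (mem_algSpan tr_span mem_orth exists_corr homEqNum_of_aniso
  sign_of_kunneth kunneth_of_mid kunneth_of_abelian one_nondeg IsKunnethBlock KunnethLinear
  GeneratedIn products)

variable {k : Type u} [Field k] {𝒱 : VarClass k} {ops : CycleOps 𝒱}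
  {W : WeilCohomology.{u, v} ops} {X V : 𝒱.Obj}

lemma span_algClasses (X : 𝒱.Obj) (p : ℕ) :
    Submodule.span W.K (algClasses W X p) = spanCycles W X p := by
  unfold spanCycles
  congr 1
  ext c
  constructor
  · rintro ⟨z, hz, rfl⟩
    exact ⟨p, rfl, z, hz, rfl⟩
  · rintro ⟨p', hp', z, hz, rfl⟩
    have : p' = p := by exact_mod_cast hp'
    subst this
    exact ⟨z, hz, rfl⟩

/-- The symmetry of the library defined by a symmetry. -/
def Symmetry.toSym (S : Symmetry W) : Pool.Agent.R908.Symmetry W where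
  σ := S.σ
  c := S.c
  sim := fun X => ⟨(S.sim X).ne_zero, (S.sim X).gr, (S.sim X).tr⟩
  monoidal := fun X Y => ⟨(S.prod X Y).1, (S.prod X Y).2⟩
  cycles := fun X p a => by
    rw [← span_algClasses]
    exact (S.sim X).alg p a

/-- The symmetries of the library. -/
def syms (𝒢 : Set (Symmetry W)) : Set (Pool.Agent.R908.Symmetry W) := Symmetry.toSym '' 𝒢

variable {𝒢 : Set (Symmetry W)} {P 𝒴 : Set 𝒱.Obj}

lemma corrs_self (X : 𝒱.Obj) (p : ℕ) : corrs W X X p = correspondences W X p := by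
  ext e
  constructor
  · rintro ⟨c, ⟨z, hz, rfl⟩, rfl⟩
    exact ⟨z, hz, rfl⟩
  · rintro ⟨z, hz, rfl⟩
    exact ⟨_, ⟨z, hz, rfl⟩, rfl⟩

lemma frame_stable {U : Submodule W.K (W.H X)}
    (h : ∀ e ∈ correspondences W X X.dim ∪ {e | ∃ S ∈ syms 𝒢, e = S.σ X}, ∀ v ∈ U, e v ∈ U) :
    (frame 𝒢 X).Stable U := by
  constructor
  · intro e he
    have he' : e ∈ corrs W X X X.dim := he
    rw [corrs_self] at he'
    exact h e (Or.inl he')
  · rintro s ⟨S, hS, rfl⟩ x hx
    exact h _ (Or.inr ⟨S.toSym, ⟨S, hS, rfl⟩, rfl⟩) x hx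

/-- The operators of a frame are linear and given by correspondences. -/
lemma exists_kop {θ : W.H X → W.H X} (hθ : θ ∈ (frame 𝒢 X).ops) :
    ∃ (δ : ℤ) (θ' : W.H X →ₗ[W.K] W.H X), θ' ∈ KOp W X X δ ∧ ∀ y, θ' y = θ y := by
  rcases hθ with rfl | ⟨p, hp⟩
  · exact ⟨0, LinearMap.id, KOp.id X, fun y => rfl⟩
  · have hp' : θ ∈ corrs W X X p := hp
    rw [corrs_self] at hp'
    obtain ⟨δ, θ', h1, h2, -⟩ := corr_mem_correspondences hp'
    exact ⟨δ, θ', h1, fun y => h2 y⟩

lemma exists_span_of_span {f : W.H X → W.H X}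
    (hf : f ∈ Submodule.span W.K (correspondences W X X.dim)) :
    ∃ γ ∈ spanCycles W (X.prod X) X.dim, ∀ a, f a = W.corr γ a := by
  refine Submodule.span_induction
    (p := fun f _ => ∃ γ ∈ spanCycles W (X.prod X) X.dim, ∀ a, f a = W.corr γ a) ?_ ?_ ?_ ?_ hf
  · rintro f ⟨z, hz, rfl⟩
    exact ⟨W.cl _ z, Submodule.subset_span ⟨_, rfl, z, hz, rfl⟩, fun a => rfl⟩
  · exact ⟨0, Submodule.zero_mem _, fun a => by rw [corr_zero]; rfl⟩
  · rintro f g _ _ ⟨γ, hγ, h⟩ ⟨γ', hγ', h'⟩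
    refine ⟨γ + γ', Submodule.add_mem _ hγ hγ', fun a => ?_⟩
    rw [Pi.add_apply, h, h', corr_add, LinearMap.add_apply]
  · rintro c f _ ⟨γ, hγ, h⟩
    refine ⟨c • γ, Submodule.smul_mem _ _ hγ, fun a => ?_⟩
    rw [Pi.smul_apply, h, corr_smul, LinearMap.smul_apply]

lemma kunnethLinear (h : (frame 𝒢 X).Kunneth) : KunnethLinear W X := by
  intro i
  obtain ⟨f, hf, hf'⟩ := h i
  have hf2 : f ∈ Submodule.span W.K (corrs W X X X.dim) := hf
  rw [corrs_self] at hf2
  obtain ⟨γ, hγ, h2⟩ := exists_span_of_span hf2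
  exact ⟨γ, hγ, fun j a ha => by rw [← h2]; exact hf' j a ha⟩

/-- The compact definition implies the definition by projectors. -/
theorem IsKunneth.linear (h : IsKunneth W X) : KunnethLinear W X := kunnethLinear h

/-- Stable subspaces are stable under the operators of degree zero. -/
lemma stable_kop {U : Submodule W.K (W.H X)} (hst : ∀ e ∈ correspondences W X X.dim, ∀ v ∈ U, e v ∈ U)
    {φ : W.H X →ₗ[W.K] W.H X} (hφ : φ ∈ KOp W X X 0) : ∀ x ∈ U, φ x ∈ U := by
  obtain ⟨γ, hγ, rfl⟩ := mem_KOp_iff.1 hφ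
  rw [add_zero] at hγ
  clear hφ
  induction hγ using Submodule.span_induction with
  | mem g hg =>
    obtain ⟨p, hp, z, hz, rfl⟩ := hg
    have hp' : p = X.dim := by exact_mod_cast hp
    subst hp'
    intro x hx
    rw [corr_apply]
    exact hst _ ⟨z, hz, rfl⟩ x hx
  | zero => intro x _; rw [corr_zero, LinearMap.zero_apply]; exact U.zero_mem
  | add a b _ _ ha hb =>
    intro x hx; rw [corr_add, LinearMap.add_apply]; exact U.add_mem (ha x hx) (hb x hx)
  | smul c a _ ha =>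
    intro x hx; rw [corr_smul, LinearMap.smul_apply]; exact U.smul_mem c (ha x hx)

/-- A non-zero space stable under the Künneth projectors has a non-zero part of some degree. -/
lemma exists_part {U : Submodule W.K (W.H X)} (hU : U ≠ ⊥)
    (hst : ∀ i, ∀ x ∈ U, proj (W.isInternal X) i x ∈ U) : ∃ i, U ⊓ W.gr X i ≠ ⊥ := by
  by_contra hcon
  push Not at hcon
  obtain ⟨x, hx, hx0⟩ := (Submodule.ne_bot_iff _).1 hU
  apply hx0
  have h1 : ∀ i, proj (W.isInternal X) i x = 0 := by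
    intro i
    have h2 : proj (W.isInternal X) i x ∈ U ⊓ W.gr X i := ⟨hst i x hx, proj_mem _ _ _⟩
    rw [hcon i, Submodule.mem_bot] at h2
    exact h2
  have h2 := sum_proj (W.isInternal X) (N := 2 * X.dim + 1)
    (fun i hi => W.gr_eq_bot X i (by omega))
  have h3 := congrArg (fun F : Module.End W.K (W.H X) => F x) h2
  beta_reduce at h3
  rw [LinearMap.sum_apply, Module.End.one_apply] at h3
  rw [← h3]
  exact Finset.sum_eq_zero (fun i _ => h1 i)

/-- Varieties of graded type. -/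
theorem graded_spec (h : (frame 𝒢 X).Graded) : KunnethLinear W X ∧ Anisotropic (syms 𝒢) X := by
  obtain ⟨A₀, h1, h2, h3, h4⟩ := h
  have hA₀ : A₀ ≤ Pool.Agent.U190.AN.algSpan W X := by
    refine h1.trans ?_
    rw [Submodule.span_le]
    intro x hx
    obtain ⟨j, hj⟩ := Set.mem_iUnion.1 hx
    exact mem_algSpan (alg_mem_span hj)
  have hT : transcendental W X ≤ orthCompl (W.tr X) (A₀ : Set (W.H X)) := by
    intro x hx
    rw [mem_orth]
    intro a ha
    exact tr_span hx (hA₀ ha)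
  -- the parts of the stable subspaces
  have key : ∀ U ≤ transcendental W X, U ≠ ⊥ → (∀ e ∈ correspondences W X X.dim ∪
      {e | ∃ S ∈ syms 𝒢, e = S.σ X}, ∀ v ∈ U, e v ∈ U) → (∃ i, U ⊓ W.gr X i ≠ ⊥) →
      ∃ θ ∈ ⋃ p, correspondences W X p, ∃ x ∈ U, ∃ y ∈ U, W.tr X (x * θ y) ≠ 0 := by
    rintro U hU - hst ⟨i, hi⟩
    obtain ⟨θ, hθ, hnd, hgood⟩ := h4 i
    obtain ⟨δ, θ', hθ', hθθ⟩ := exists_kop hθ
    have hst' : (frame 𝒢 X).Stable (U ⊓ W.gr X i) := by
      apply frame_stable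
      rintro e (he | ⟨S, hS, rfl⟩) v hv
      · refine ⟨hst e (Or.inl he) v hv.1, ?_⟩
        obtain ⟨δ, φ, hφ, he', hδ⟩ := corr_mem_correspondences he
        rw [← he']
        have h5 := KOp.isHom hφ (i : ℤ) v (by rw [grZ_natCast]; exact hv.2)
        rwa [show (i : ℤ) + 2 * δ = ((i : ℕ) : ℤ) by omega, grZ_natCast] at h5
      · exact ⟨hst _ (Or.inr ⟨S, hS, rfl⟩) v hv.1, ((S.sim X).gr i v).2 hv.2⟩
    obtain ⟨θ₂, hθ₂, x, hx, y, hy, hxy⟩ := hgood.pairs
      (fun x y z => by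
        change W.tr X (x * θ (y + z)) = W.tr X (x * θ y) + W.tr X (x * θ z)
        rw [← hθθ, ← hθθ, ← hθθ, map_add, mul_add, map_add])
      (fun x a y => by
        change W.tr X (x * θ (a • y)) = a * W.tr X (x * θ y)
        rw [← hθθ, ← hθθ, map_smul, mul_smul_comm, map_smul, smul_eq_mul])
      (fun x y z => by
        change W.tr X ((x + y) * θ z) = W.tr X (x * θ z) + W.tr X (y * θ z)
        rw [add_mul, map_add])
      (fun a x y => by
        change W.tr X (a • x * θ y) = a * W.tr X (x * θ y)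
        rw [smul_mul_assoc, map_smul, smul_eq_mul])
      hnd (le_inf (inf_le_left.trans (hU.trans hT)) inf_le_right) hi hst'
    obtain ⟨δ₂, θ₂', hθ₂', hθθ₂⟩ := exists_kop hθ₂
    have h5 : W.tr X (x * (θ' ∘ₗ θ₂') y) ≠ 0 := by
      rw [LinearMap.comp_apply, hθθ₂, hθθ]
      exact hxy
    obtain ⟨θ₃, hθ₃, h6⟩ := exists_corr (KOp.comp hθ' hθ₂') (x := x) (y := y) h5
    exact ⟨θ₃, hθ₃, x, hx.1, y, hy.1, h6⟩
  rcases h3 with hmid | hK
  · have hAn : Anisotropic (syms 𝒢) X := by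
      intro U hU hne hst
      have h5 : U ≤ W.gr X X.dim := hU.trans (hT.trans hmid)
      exact key U hU hne hst ⟨X.dim, by
        rw [inf_eq_left.2 h5]
        exact hne⟩
    exact ⟨KunnethLinear.of_kop (kunneth_of_mid (homEqNum_of_aniso hAn) (hT.trans hmid)), hAn⟩
  · have hK' : KunnethLinear W X := kunnethLinear hK
    refine ⟨hK', fun U hU hne hst => key U hU hne hst (exists_part hne (fun i => ?_))⟩
    exact stable_kop (fun e he => hst e (Or.inl he)) (hK'.kop i)

lemma abelian_spec {m : X.prod X ⟶ X} {D : X.Cycles} (hD : X.IsCyc 1 D)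
    (hm : IsAddition (W.gr X 1) (W.map m) (W.map (fst X X)) (W.map (snd X X)))
    (h : (frame 𝒢 X).Abelian (W.cl X D)) :
    IsAbelianType (syms 𝒢) X m D ∧ AnisotropicOne (syms 𝒢) X := by
  obtain ⟨h1, h2, h3, h4⟩ := h
  have hA : IsAbelianType (syms 𝒢) X m D := by
    refine ⟨⟨hm, h1⟩, hD, h2, ?_⟩
    rintro _ ⟨S, hS, rfl⟩
    exact h3 (S.σ X, S.c X) ⟨S, hS, rfl⟩
  refine ⟨hA, ?_⟩
  intro U hU hne hst
  obtain ⟨θ, hθ, x, hx, y, hy, hxy⟩ := h4.pairs
    (fun x y z => by rw [mul_add, map_add])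
    (fun x a y => by rw [mul_smul_comm, map_smul, smul_eq_mul])
    (fun x y z => by rw [add_mul, add_mul, map_add])
    (fun a x y => by rw [smul_mul_assoc, smul_mul_assoc, map_smul, smul_eq_mul])
    (fun x hx h => one_nondeg hA hx h) hU hne (frame_stable hst)
  have hxy' : W.tr X (x * (W.cl X D) ^ (X.dim - 1) * θ y) ≠ 0 := hxy
  obtain ⟨δ, θ', hθ', he⟩ := exists_kop hθ
  have h5 : W.tr X (x * (lefP W X D (X.dim - 1) ∘ₗ θ') y) ≠ 0 := by
    rw [LinearMap.comp_apply, lefP_eq, ← mul_assoc, he]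
    exact hxy'
  obtain ⟨θ₂, hθ₂, h6⟩ := exists_corr (KOp.comp (lefP_mem hD _) hθ') (x := x) (y := y) h5
  exact ⟨θ₂, hθ₂, x, hx, y, hy, h6⟩

/-- The basic varieties are building blocks with Künneth projectors. -/
theorem IsBasic.block (h : IsBasic 𝒢 X) : IsKunnethBlock (syms 𝒢) X := by
  right; right
  rcases h with h | ⟨m, D, hD, hm, h⟩
  · obtain ⟨h1, h2⟩ := graded_spec h
    exact ⟨h1, Or.inl ⟨sign_of_kunneth (fun i => h1.kop i), h2⟩⟩
  · obtain ⟨h1, h2⟩ := abelian_spec hD hm h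
    exact ⟨KunnethLinear.of_kop (kunneth_of_abelian h1.abelianLike), Or.inr ⟨m, D, h1, h2⟩⟩

lemma generated_iff {i : ℕ} : Generated W P 𝒴 V i ↔ GeneratedIn W (products P 𝒴) V i := by
  have h : imagesOfProducts W P 𝒴 V = {x | ∃ Z ∈ products P 𝒴, ∃ (p : ℕ)
      (z : (Z.prod V).Cycles), (Z.prod V).IsCyc p z ∧ ∃ a : W.H Z, W.corr (W.cl _ z) a = x} := by
    ext x
    constructor
    · rintro ⟨Z, hZ, p, _, ⟨_, ⟨z, hz, rfl⟩, rfl⟩, a, rfl⟩
      exact ⟨Z, hZ, p, z, hz, a, rfl⟩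
    · rintro ⟨Z, hZ, p, z, hz, a, rfl⟩
      exact ⟨Z, hZ, p, _, ⟨_, ⟨z, hz, rfl⟩, rfl⟩, a, rfl⟩
  unfold Generated
  rw [h]
  exact Iff.rfl

end Pool.Agent.U190.AP
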