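import Pool.Agent.H914R2.HodgeDefs
import Pool.Agent.H914R2.LefDefs
import Pool.Agent.U190.AP.SpecDef

/-!
# Graded algebras with a trace, correspondences and symmetries: definitions
-/

namespace Pool.Agent.U190.AP

/-- A graded algebra `A` over the field `K` with a trace form, a number `n` (the dimension), the sets
`alg p` of the algebraic classes of codimension `p`, the sets `op p` of the operators given by
correspondences of codimension `p`, and a set `G` of pairs of an automorphism (a symmetry) and its
multiplier. -/
structure Frame (K A : Type*) [Field K] [Ring A] [Algebra K A] where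
  /-- the grading -/
  gr : ℕ → Submodule K A
  /-- the orientation -/
  tr : A →ₗ[K] K
  /-- the dimension -/
  n : ℕ
  /-- the algebraic classes -/
  alg : ℕ → Set A
  /-- the correspondences -/
  op : ℕ → Set (A → A)
  /-- the symmetries and their multipliers -/
  G : Set ((A ≃ₐ[K] A) × K)

variable {K A : Type*} [Field K] [Ring A] [Algebra K A]

namespace Frame

variable (F : Frame K A)

/-- The subspace `U` is stable under the correspondences of degree zero and the symmetries. -/
def Stable (U : Submodule K A) : Prop :=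
  (∀ e ∈ F.op F.n, ∀ x ∈ U, e x ∈ U) ∧ ∀ s ∈ F.G, ∀ x ∈ U, s.1 x ∈ U

/-- The correspondences of all degrees, and the identity. -/
def ops : Set (A → A) := {θ | θ = id ∨ ∃ p, θ ∈ F.op p}

/-- Every non-zero stable subspace of `P` pairs non-trivially with itself, for the form `B`, after
applying some correspondence. -/
def NoIsotropic (B : A → A → K) (P : Submodule K A) : Prop :=
  ∀ U ≤ P, U ≠ ⊥ → F.Stable U → ∃ θ ∈ F.ops, ∃ x ∈ U, ∃ y ∈ U, B x (θ y) ≠ 0

/-- Picard and Lefschetz: `P` is spanned by a set of elements (the vanishing cycles), any two of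
which are conjugate up to sign under the symmetries, and for each `δ` in it some symmetry acts on `P` by
`x ↦ x + c B(x, δ) δ` with `c ≠ 0`. -/
def VanishingCycles (B : A → A → K) (P : Submodule K A) : Prop :=
  ∃ Δ : Set A, Submodule.span K Δ = P ∧
    (∀ δ ∈ Δ, ∀ δ' ∈ Δ, ∃ s ∈ F.G, s.1 δ = δ' ∨ s.1 δ = -δ') ∧
    ∀ δ ∈ Δ, ∃ s ∈ F.G, ∃ c : K, c ≠ 0 ∧ ∀ x ∈ P, s.1 x = x + (c * B x δ) • δ

/-- Every linear operator on `P` which commutes with `s` is a linear combination of correspondences of
degree zero. -/
def SpansCommutant {P : Submodule K A} (s : Module.End K P) : Prop :=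
  ∀ φ : Module.End K P, φ ∘ₗ s = s ∘ₗ φ → ∃ ψ ∈ Submodule.span K (F.op F.n), ∀ x : P, φ x = ψ x

/-- Some symmetry `s` acts on `P` with the multiplier `q` for the form `B`, semisimply and such that
every eigenvalue `α` is conjugate to `q / α` over `K`; and the eigenvalues of `s` on `P` are simple, or
all operators on `P` commuting with `s` are combinations of correspondences (the theorem or conjecture
of Tate for the Frobenius endomorphism). -/
def SelfDualSpectrum (B : A → A → K) (P : Submodule K A) : Prop :=
  ∃ s ∈ F.G, ∃ q : K, q ≠ 0 ∧ (∀ x y, B (s.1 x) (s.1 y) = q * B x y) ∧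
    ∃ h : ∀ x ∈ P, s.1.toLinearMap x ∈ P, IsSelfDual (s.1.toLinearMap.restrict h) q ∧
      ((minpoly K (s.1.toLinearMap.restrict h)).natDegree = Module.finrank K P ∨
        F.SpansCommutant (s.1.toLinearMap.restrict h))

/-- `P` has no isotropic stable subspace, or is spanned by conjugate vanishing cycles, or some symmetry
acts semisimply on it with eigenvalues `α` conjugate to `q / α`, simple or satisfying the theorem of
Tate. -/
def Good (B : A → A → K) (P : Submodule K A) : Prop :=
  F.NoIsotropic B P ∨ F.VanishingCycles B P ∨ F.SelfDualSpectrum B P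

/-- The elements orthogonal to `A₀`. -/
def perp (A₀ : Submodule K A) : Submodule K A := Pool.Agent.H914.orthCompl F.tr A₀

/-- The projections to the spaces `gr i` are linear combinations of correspondences of degree
zero. -/
def Kunneth : Prop :=
  ∀ i, ∃ f ∈ Submodule.span K (F.op F.n), ∀ j, ∀ a ∈ F.gr j, f a = if j = i then a else 0

/-- Graded type: the algebra is the sum of a subspace `A₀` spanned by algebraic classes and of its
orthogonal complement `Q`; either `Q` is contained in the degree `n`, or the Künneth projectors are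
combinations of correspondences; and for all degrees `i` some correspondence `θ` defines a form
`tr (x θ(y))` on `Q ∩ gr i` which is non-degenerate and good. -/
def Graded : Prop :=
  ∃ A₀ ≤ Submodule.span K (⋃ p, F.alg p), A₀ ⊔ F.perp A₀ = ⊤ ∧
    (F.perp A₀ ≤ F.gr F.n ∨ F.Kunneth) ∧ ∀ i, ∃ θ ∈ F.ops,
      (∀ x ∈ F.perp A₀ ⊓ F.gr i, (∀ y ∈ F.perp A₀ ⊓ F.gr i, F.tr (x * θ y) = 0) → x = 0) ∧
      F.Good (fun x y => F.tr (x * θ y)) (F.perp A₀ ⊓ F.gr i)

/-- Abelian type with respect to `ξ` of degree two: the algebra is generated by `gr 1`, hard Lefschetz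
holds for `ξ`, the symmetries multiply `ξ` by non-zero constants, and `gr 1` is good for the form
`tr (x ξ ^ (n - 1) y)`. -/
def Abelian (ξ : A) : Prop :=
  (∀ i, F.gr i ≤ F.gr 1 ^ i) ∧
    Pool.Agent.H914.HardLef F.gr F.n (LinearMap.mulLeft K ξ) ∧
    (∀ s ∈ F.G, ∃ c : K, c ≠ 0 ∧ s.1 ξ = c • ξ) ∧
    F.Good (fun x y => F.tr (x * ξ ^ (F.n - 1) * y)) (F.gr 1)

end Frame

/-- The subspace `U` is contained in the span of the set `M`. -/
def IsSpannedBy (U : Submodule K A) (M : Set A) : Prop := U ≤ Submodule.span K M

end Pool.Agent.U190.AP
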