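import Pool.Agent.U190.AP.SDefs

/-!
# One Künneth projector: definitions
-/

open CategoryTheory AlgebraicGeometry

universe u v

namespace Pool.Agent.U190.AP

open Pool.Agent.H914 Pool.Agent.H914.VarClass Pool.Agent.H914.VarClass.Obj
  Pool.Agent.H914.WeilCohomology

/-- The projection to `gr i`, along the other parts `gr j`, is a linear combination of
correspondences of degree zero. -/
def Frame.HasProjection {K A : Type*} [Field K] [Ring A] [Algebra K A] (F : Frame K A) (i : ℕ) :
    Prop :=
  ∃ f ∈ Submodule.span K (F.op F.n), ∀ j, ∀ a ∈ F.gr j, f a = if j = i then a else 0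

/-- The Künneth projector `π^i` of `X` is algebraic: the projection to `H^i(X)` is a combination of
algebraic correspondences, with coefficients in the coefficient field of `W`. -/
def IsKunnethIn {k : Type u} [Field k] {𝒱 : VarClass k} {ops : CycleOps 𝒱}
    (W : WeilCohomology.{u, v} ops) (X : 𝒱.Obj) (i : ℕ) : Prop :=
  (frame (∅ : Set (Symmetry W)) X).HasProjection i

end Pool.Agent.U190.AP
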