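import Pool.Agent.U190.AN.Par
import Pool.Agent.U190.AP.Bridge
import Pool.Agent.U190.AP.KuDefs

/-!
# Künneth projectors and parity projectors of generated varieties
-/

open CategoryTheory AlgebraicGeometry

universe u v

namespace Pool.Agent.U190.AP

open Pool.Agent.H914 Pool.Agent.H914.VarClass Pool.Agent.H914.VarClass.Obj
  Pool.Agent.H914.WeilCohomology Pool.Agent.H281R3.HT Pool.Agent.R908 Pool.Agent.H447
  Pool.Agent.U190.AN

variable {k : Type u} [Field k] {𝒱 : VarClass k} {ops : CycleOps 𝒱}
  {W : WeilCohomology.{u, v} ops} {𝒢 : Set (Symmetry W)} {P 𝒴 : Set 𝒱.Obj} {X V : 𝒱.Obj}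

lemma corr_mem_span {p : ℕ} {γ : W.H (X.prod X)} (hγ : γ ∈ spanCycles W (X.prod X) (p : ℤ)) :
    (fun a => W.corr γ a) ∈ Submodule.span W.K (corrs W X X p) := by
  induction hγ using Submodule.span_induction with
  | mem g hg =>
    obtain ⟨q, hq, z, hz, rfl⟩ := hg
    have hq' : q = p := by exact_mod_cast hq
    subst hq'
    refine Submodule.subset_span ⟨_, ⟨z, hz, rfl⟩, ?_⟩
    funext a
    rw [corr_apply]
  | zero =>
    have h0 : (fun a : W.H X => W.corr (0 : W.H (X.prod X)) a) = 0 := by
      funext a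
      rw [corr_zero, LinearMap.zero_apply]
      rfl
    rw [h0]
    exact Submodule.zero_mem _
  | add a b _ _ ha hb =>
    have h0 : (fun x : W.H X => W.corr (a + b) x) =
        (fun x => W.corr a x) + (fun x => W.corr b x) := by
      funext x
      rw [corr_add, LinearMap.add_apply]
      rfl
    rw [h0]
    exact Submodule.add_mem _ ha hb
  | smul c a _ ha =>
    have h0 : (fun x : W.H X => W.corr (c • a) x) = c • (fun x => W.corr a x) := by
      funext x
      rw [corr_smul, LinearMap.smul_apply]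
      rfl
    rw [h0]
    exact Submodule.smul_mem _ _ ha

lemma isKunnethIn_of_kop {i : ℕ} (h : proj (W.isInternal X) i ∈ KOp W X X 0) :
    IsKunnethIn W X i := by
  obtain ⟨γ, hγ, he⟩ := mem_KOp_iff.1 h
  rw [add_zero] at hγ
  refine ⟨_, corr_mem_span hγ, fun j a ha => ?_⟩
  change W.corr γ a = _
  rw [he]
  split_ifs with h1
  · subst h1
    exact proj_same _ ha
  · exact proj_ne _ ha h1

lemma isKunneth_iff : IsKunneth W X ↔ ∀ i, IsKunnethIn W X i := Iff.rfl

lemma IsKunneth.kop (h : IsKunneth W X) (i : ℕ) : proj (W.isInternal X) i ∈ KOp W X X 0 :=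
  h.linear.kop i

/-- The degrees `i` and `2 dim V - i` of `V` are generated. -/
lemma generated_pair {i i' : ℕ} (hii : i + i' = 2 * V.dim)
    (h : (Generated W P 𝒴 V i ∧ Generated W P 𝒴 V i') ∨
      ∃ D, V.IsCyc 1 D ∧ HardLefschetz W V D ∧ i ≤ i' ∧ Generated W P 𝒴 V i) :
    Pool.Agent.Y106.Gen.IsGeneratedBy W (products P 𝒴) V i ∧
      Pool.Agent.Y106.Gen.IsGeneratedBy W (products P 𝒴) V i' := by
  rcases h with ⟨h1, h2⟩ | ⟨D, hD, hHL, hle, h1⟩
  · exact ⟨(generated_iff.1 h1).isGeneratedBy, (generated_iff.1 h2).isGeneratedBy⟩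
  · have h3 := (generated_iff.1 h1).isGeneratedBy
    refine ⟨h3, ?_⟩
    have h4 := isGeneratedBy_high hD hHL (i := i) (by omega) h3
    rwa [show 2 * V.dim - i = i' by omega] at h4

/-- **The Künneth projectors of the generated degrees are algebraic.** -/
theorem isKunnethIn_pair (hP : ∀ X ∈ P, IsBasic 𝒢 X) (h𝒴 : ∀ Y, IsProductOf 𝒴 Y → HomEqNum W Y)
    (hK : ∀ Y ∈ 𝒴, IsKunneth W Y) {i i' : ℕ} (hii : i + i' = 2 * V.dim)
    (h : (Generated W P 𝒴 V i ∧ Generated W P 𝒴 V i') ∨
      ∃ D, V.IsCyc 1 D ∧ HardLefschetz W V D ∧ i ≤ i' ∧ Generated W P 𝒴 V i) :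
    IsKunnethIn W V i ∧ IsKunnethIn W V i' := by
  have hS := isStandardK (fun Y hY => (hP Y hY).block) (fun Y hY => (hK Y hY).linear) h𝒴
  obtain ⟨h1, h2⟩ := generated_pair hii h
  exact ⟨isKunnethIn_of_kop (proj_mem_of_generated hS hii h1 h2),
    isKunnethIn_of_kop (proj_mem_of_generated hS (by omega) h2 h1)⟩

/-- The last Künneth projector. -/
lemma proj_of_others {n : ℕ} (h : ∀ i, i ≠ n → proj (W.isInternal X) i ∈ KOp W X X 0) :
    proj (W.isInternal X) n ∈ KOp W X X 0 := by
  have h1 : (1 : Module.End W.K (W.H X)) - ∑ i ∈ (Finset.range (2 * X.dim + 1)).erase n,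
      proj (W.isInternal X) i ∈ KOp W X X 0 := by
    refine Submodule.sub_mem _ (KOp.id X) (Submodule.sum_mem _ (fun i hi => h i ?_))
    exact Finset.ne_of_mem_erase hi
  by_cases hn : n ≤ 2 * X.dim
  · have h2 : (1 : Module.End W.K (W.H X)) - ∑ i ∈ (Finset.range (2 * X.dim + 1)).erase n,
        proj (W.isInternal X) i = proj (W.isInternal X) n := by
      apply gr_ext (W.isInternal X)
      intro j a ha
      rw [LinearMap.sub_apply, Module.End.one_apply, LinearMap.sum_apply]
      by_cases hj : j ≤ 2 * X.dim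
      · by_cases hjn : j = n
        · subst hjn
          rw [proj_same _ ha, Finset.sum_eq_zero, sub_zero]
          intro i hi
          exact proj_ne _ ha (Ne.symm (Finset.ne_of_mem_erase hi))
        · rw [proj_ne _ ha hjn, Finset.sum_eq_single j, proj_same _ ha, sub_self]
          · intro i _ hi
            exact proj_ne _ ha (Ne.symm hi)
          · intro h0
            exact (h0 (Finset.mem_erase.2 ⟨hjn, Finset.mem_range.2 (by omega)⟩)).elim
      · rw [W.gr_eq_bot X j (by omega), Submodule.mem_bot] at ha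
        rw [ha]
        simp
    rw [← h2]
    exact h1
  · have h2 : proj (W.isInternal X) n = 0 := by
      apply gr_ext (W.isInternal X)
      intro j a ha
      rw [LinearMap.zero_apply]
      by_cases hjn : j = n
      · subst hjn
        rw [W.gr_eq_bot X j (by omega), Submodule.mem_bot] at ha
        rw [ha, map_zero]
      · exact proj_ne _ ha hjn
    rw [h2]
    exact Submodule.zero_mem _

/-- **All Künneth projectors are algebraic if the cohomology below the middle is generated.** -/
theorem isKunneth_of_low (hP : ∀ X ∈ P, IsBasic 𝒢 X)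
    (h𝒴 : ∀ Y, IsProductOf 𝒴 Y → HomEqNum W Y) (hK : ∀ Y ∈ 𝒴, IsKunneth W Y)
    {D : V.Cycles} (hD : V.IsCyc 1 D) (hHL : HardLefschetz W V D)
    (h : ∀ i < V.dim, Generated W P 𝒴 V i) : IsKunneth W V := by
  have hS := isStandardK (fun Y hY => (hP Y hY).block) (fun Y hY => (hK Y hY).linear) h𝒴
  have h1 : ∀ i, i ≠ V.dim → proj (W.isInternal V) i ∈ KOp W V V 0 := by
    intro i hi
    by_cases hlt : i < V.dim
    · have h2 := (generated_iff.1 (h i hlt)).isGeneratedBy
      exact proj_mem_of_generated hS (i' := 2 * V.dim - i) (by omega) h2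
        (isGeneratedBy_high hD hHL hlt.le h2)
    · by_cases hbig : 2 * V.dim < i
      · have h2 : proj (W.isInternal V) i = 0 := by
          apply gr_ext (W.isInternal V)
          intro j a ha
          rw [LinearMap.zero_apply]
          by_cases hjn : j = i
          · subst hjn
            rw [W.gr_eq_bot V j (by omega), Submodule.mem_bot] at ha
            rw [ha, map_zero]
          · exact proj_ne _ ha hjn
        rw [h2]
        exact Submodule.zero_mem _
      · have h2 := (generated_iff.1 (h (2 * V.dim - i) (by omega))).isGeneratedBy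
        have h3 := isGeneratedBy_high hD hHL (i := 2 * V.dim - i) (by omega) h2
        rw [show 2 * V.dim - (2 * V.dim - i) = i by omega] at h3
        exact proj_mem_of_generated hS (i' := 2 * V.dim - i) (by omega) h3 h2
  intro i
  by_cases hi : i = V.dim
  · subst hi
    exact isKunnethIn_of_kop (proj_of_others h1)
  · exact isKunnethIn_of_kop (h1 i hi)

/-- Members of `𝒴` are generated. -/
lemma generated_of_mem {Y : 𝒱.Obj} (hY : Y ∈ 𝒴) (i : ℕ) : Generated W P 𝒴 Y i :=
  generated_iff.2 (generated_self (IsProductOf.base (Or.inr hY)) i)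

/-- **The sign conjecture for varieties with generated odd or even cohomology.** -/
theorem signStd_of_generated (hP : ∀ X ∈ P, IsBasic 𝒢 X)
    (h𝒴 : ∀ Y, IsProductOf 𝒴 Y → HomEqNum W Y) (hC : ∀ Y ∈ 𝒴, SignStd W Y) {s : ℕ} (hs : s < 2)
    (h : ∀ i, i % 2 = s → Generated W P 𝒴 V i ∨
      ∃ D, V.IsCyc 1 D ∧ HardLefschetz W V D ∧ V.dim < i ∧
        (i ≤ 2 * V.dim → Generated W P 𝒴 V (2 * V.dim - i))) : SignStd W V := by
  rw [signStd_iff' hs]
  have hsign : ∀ Z ∈ products P 𝒴, SignStd W Z := fun Z hZ => signStd_products (Q := P ∪ 𝒴) (by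
    rintro X (hX | hX)
    · exact signStd_of_kunneth (fun i => (hP X hX).block.kunneth i)
    · exact hC X hX) hZ
  refine pp_mem (R := products P 𝒴) ?_ (fun Z hZ => (signStd_iff' hs).1 (hsign Z hZ)) ?_
  · exact fun Z hZ Z' hZ' => homEqNum_products (fun X hX => (hP X hX).block.type) h𝒴
      (IsProductOf.prod hZ hZ')
  · intro i hi
    rcases h i hi with h1 | ⟨D, hD, hHL, hlt, h1⟩
    · exact (generated_iff.1 h1).isGeneratedBy
    · by_cases hle : i ≤ 2 * V.dim
      · have h2 := (generated_iff.1 (h1 hle)).isGeneratedBy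
        have h3 := isGeneratedBy_high hD hHL (i := 2 * V.dim - i) (by omega) h2
        rwa [show 2 * V.dim - (2 * V.dim - i) = i by omega] at h3
      · intro a ha
        rw [W.gr_eq_bot V i (by omega), Submodule.mem_bot] at ha
        rw [ha]
        exact Submodule.zero_mem _

end Pool.Agent.U190.AP
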