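import Pool.Agent.H914R2.DDefs
import Pool.Agent.U190.AP.FrDefs

/-!
# Symmetries of a Weil cohomology theory, basic varieties, and varieties generated by products
-/

open CategoryTheory AlgebraicGeometry

universe u v

namespace Pool.Agent.U190.AP

open Pool.Agent.H914 Pool.Agent.H914.VarClass Pool.Agent.H914.VarClass.Obj

section Linear

variable {K A B C : Type*} [Field K] [Ring A] [Algebra K A] [Ring B] [Algebra K B] [Ring C]
  [Algebra K C]

/-- The automorphism `σ` preserves the degrees and the spans of the sets `alg p`, and multiplies the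
orientation by the non-zero constant `c`. -/
structure IsSimilitude (gr : ℕ → Submodule K A) (tr : A →ₗ[K] K) (alg : ℕ → Set A)
    (σ : A ≃ₐ[K] A) (c : K) : Prop where
  ne_zero : c ≠ 0
  gr : ∀ i a, σ a ∈ gr i ↔ a ∈ gr i
  tr : ∀ a, tr (σ a) = c * tr a
  alg : ∀ p a, σ a ∈ Submodule.span K (alg p) ↔ a ∈ Submodule.span K (alg p)

/-- The maps `f` and `σ`, `τ` commute: `f (σ a) = τ (f a)`. -/
def Commutes (f : A →ₐ[K] B) (σ : A ≃ₐ[K] A) (τ : B ≃ₐ[K] B) : Prop := ∀ a, f (σ a) = τ (f a)

/-- The map `m` is the sum of the maps `f` and `s` on the subspace `G`. -/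
def IsAddition (G : Submodule K A) (m f s : A →ₐ[K] B) : Prop := ∀ x ∈ G, m x = f x + s x

/-- The operators `a ↦ s (c p(a))`, for all `c` in `M`. -/
def operatorsOf (p : A →ₐ[K] C) (s : C →ₗ[K] B) (M : Set C) : Set (A → B) :=
  {e | ∃ c ∈ M, e = fun a => s (c * p a)}

end Linear

variable {k : Type u} [Field k] {𝒱 : VarClass k} {ops : CycleOps 𝒱}

/-- A symmetry of a Weil cohomology theory: automorphisms `σ` of the graded algebras `H(X)` over the
coefficient field `K`, compatible with the two projections of a product, preserving the spaces of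
`K`-linear combinations of classes of algebraic cycles, and multiplying the orientation of `X` by a
non-zero constant `c X`. -/
structure Symmetry (W : WeilCohomology.{u, v} ops) where
  /-- the automorphisms -/
  σ : ∀ X, W.H X ≃ₐ[W.K] W.H X
  /-- the multipliers -/
  c : 𝒱.Obj → W.K
  sim : ∀ X, IsSimilitude (W.gr X) (W.tr X) (algClasses W X) (σ X) (c X)
  prod : ∀ X Y, Commutes (W.map (fst X Y)) (σ X) (σ (X.prod Y)) ∧
    Commutes (W.map (snd X Y)) (σ Y) (σ (X.prod Y))

/-- The algebraic correspondences: the maps `H(X) → H(Y)` defined by the cycles of codimension `p` on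
`X × Y`. -/
def corrs (W : WeilCohomology.{u, v} ops) (X Y : 𝒱.Obj) (p : ℕ) : Set (W.H X → W.H Y) :=
  operatorsOf (W.map (fst X Y)) (W.push (snd X Y)) (algClasses W (X.prod Y) p)

variable {W : WeilCohomology.{u, v} ops}

/-- The cohomology of `X` with the correspondences and the symmetries in `𝒢`. -/
def frame (𝒢 : Set (Symmetry W)) (X : 𝒱.Obj) : Frame W.K (W.H X) where
  gr := W.gr X
  tr := W.tr X
  n := X.dim
  alg := algClasses W X
  op := corrs W X X
  G := (fun S => (S.σ X, S.c X)) '' 𝒢

/-- The variety `X` is of graded type, or of abelian type with an addition `m` and a divisor `D`. -/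
def IsBasic (𝒢 : Set (Symmetry W)) (X : 𝒱.Obj) : Prop :=
  (frame 𝒢 X).Graded ∨ ∃ (m : X.prod X ⟶ X) (D : X.Cycles), X.IsCyc 1 D ∧
    IsAddition (W.gr X 1) (W.map m) (W.map (fst X X)) (W.map (snd X X)) ∧
    (frame 𝒢 X).Abelian (W.cl X D)

/-- The images in `H(V)` of the algebraic correspondences from products, with repetitions, of members
of `P` and `𝒴`. -/
def imagesOfProducts (W : WeilCohomology.{u, v} ops) (P 𝒴 : Set 𝒱.Obj) (V : 𝒱.Obj) :
    Set (W.H V) :=
  {x | ∃ Z, IsProductOf (P ∪ 𝒴) Z ∧ ∃ p, ∃ e ∈ corrs W Z V p, x ∈ Set.range e}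

/-- The space `H^i(V)` is spanned by the images of algebraic correspondences from products, with
repetitions, of members of `P` and `𝒴`. -/
def Generated (W : WeilCohomology.{u, v} ops) (P 𝒴 : Set 𝒱.Obj) (V : 𝒱.Obj) (i : ℕ) : Prop :=
  IsSpannedBy (W.gr V i) (imagesOfProducts W P 𝒴 V)

/-- The projections to `H^i(X)` are combinations of algebraic correspondences, with coefficients in
the coefficient field of `W`. -/
def IsKunneth (W : WeilCohomology.{u, v} ops) (X : 𝒱.Obj) : Prop :=
  (frame (∅ : Set (Symmetry W)) X).Kunneth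

end Pool.Agent.U190.AP
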